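import Pool.Agent.Helper70.BN.St1

set_option autoImplicit false

namespace Pool.Agent.Helper94.BN

open Pool.Agent.Helper70.BN

variable {l : ℕ} {A : Fin l → Fin l → ℤ}

theorem WC_cons (q : Fin l → ℕ) (u : (Fin l → ℤ) → (Fin l → ℤ)) (i : Fin l) (w : List (Fin l)) :
    WC A q u (i :: w) = (i, cc q i (u (al i))) :: WC A q (fun v => u (sr A i v)) w := by
  simp only [WC, rts_cons, List.zip_cons_cons, List.map_cons, List.zip_map_right, List.map_map]
  rfl

theorem WC_nil (q : Fin l → ℕ) (u : (Fin l → ℤ) → (Fin l → ℤ)) : WC A q u [] = [] := rfl

theorem WC_append (q : Fin l → ℕ) (u : (Fin l → ℤ) → (Fin l → ℤ)) (a b : List (Fin l)) :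
    WC A q u (a ++ b) = WC A q u a ++ WC A q (fun v => u (wa A a v)) b := by
  induction a generalizing u with
  | nil => rfl
  | cons i a ih =>
    rw [List.cons_append, WC_cons, ih, WC_cons, List.cons_append]
    rfl

theorem PR_cons {H : Type} [Ring H] [Algebra ℝ H] (T : Fin l → H) (x : Fin l × ℝ) (xs : List (Fin l × ℝ)) :
    PR T (x :: xs) = (algebraMap ℝ H x.2 + T x.1) * PR T xs := by
  simp [PR]

theorem PR_append {H : Type} [Ring H] [Algebra ℝ H] (T : Fin l → H) (x y : List (Fin l × ℝ)) :
    PR T (x ++ y) = PR T x * PR T y := by
  simp [PR]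

theorem mm_succ (A : Fin l → Fin l → ℤ) (i j : Fin l) : ∃ k, mm A i j = k + 1 := by
  unfold mm
  split_ifs
  · exact ⟨1, rfl⟩
  · exact ⟨2, rfl⟩
  · exact ⟨3, rfl⟩

theorem hRMAT (hRRED : StRRED) (hRSTR : StRSTR) (hRTWO : StRTWO) (hRYB : StRYB) : StRMAT := by
  intro l A d Φ hRS q hq hq3 H _ _ T hT
  obtain ⟨-, -, hR3, hR4, -⟩ := hRRED l A d Φ hRS
  have key : ∀ n : ℕ, ∀ (w w' z : List (Fin l)), w.length = n → Red A w → Red A w' →
      (∀ v, wa A w v = wa A w' v) → (∀ β ∈ rts A w, 0 ≤ wa A z β) →
      PR T (WC A q (wa A z) w) = PR T (WC A q (wa A z) w') := by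
    intro n
    induction n with
    | zero =>
      intro w w' z hn hw hw' he hz
      have h1 := (hR4 w w' hw hw' he).2
      have h2 : w = [] := List.length_eq_zero_iff.1 hn
      have h3 : w' = [] := List.length_eq_zero_iff.1 (by rw [← h1, hn])
      rw [h2, h3]
    | succ n ih =>
      -- equal first letters
      have same : ∀ (i : Fin l) (a b z : List (Fin l)), (i :: a).length = n + 1 → Red A (i :: a) →
          Red A (i :: b) → (∀ v, wa A (i :: a) v = wa A (i :: b) v) →
          (∀ β ∈ rts A (i :: a), 0 ≤ wa A z β) →
          PR T (WC A q (wa A z) (i :: a)) = PR T (WC A q (wa A z) (i :: b)) := by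
        intro i a b z hn ha hb he hz
        have hfun : (fun v => wa A z (sr A i v)) = wa A (z ++ [i]) := by
          funext v
          rw [wa_append]
          rfl
        rw [WC_cons, WC_cons, PR_cons, PR_cons, hfun]
        congr 1
        apply ih a b (z ++ [i]) (by simpa using hn) (hR3 i a ha) (hR3 i b hb)
        · intro v
          apply sr_inj hRS.diag i
          exact he v
        · intro β hβ
          rw [← hfun]
          apply hz
          rw [rts_cons]
          exact List.mem_cons_of_mem _ (List.mem_map_of_mem hβ)
      intro w w' z hn hw hw' he hz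
      have h4 := hR4 w w' hw hw' he
      match w, w', hn, hw, hw', he, hz, h4 with
      | [], _, hn, _, _, _, _, _ => simp at hn
      | i :: a, [], _, _, _, _, _, h4 => simp at h4
      | i :: a, j :: b, hn, hw, hw', he, hz, h4 =>
        by_cases hij : i = j
        · subst hij
          exact same i a b z hn hw hw' he hz
        · have hi : al i ∈ rts A (i :: a) := by rw [rts_cons]; exact List.mem_cons_self
          have hj : al j ∈ rts A (i :: a) := by
            rw [h4.1, rts_cons]; exact List.mem_cons_self
          obtain ⟨w'', r1, r2, e1, e2⟩ := hRSTR l A d Φ hRS i j (i :: a) hij hw hi hj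
          obtain ⟨k, hk⟩ := mm_succ A i j
          have a1 : alt i j (mm A i j) ++ w'' = i :: (alt j i k ++ w'') := by rw [hk]; rfl
          have a2 : alt j i (mm A i j) ++ w'' = j :: (alt i j k ++ w'') := by rw [hk]; rfl
          have m1 := hR4 (i :: a) _ hw r1 (fun v => (e1 v).symm)
          have m2 := hR4 (i :: a) _ hw r2 (fun v => (e2 v).symm)
          have s1 : PR T (WC A q (wa A z) (i :: a)) =
              PR T (WC A q (wa A z) (alt i j (mm A i j) ++ w'')) := by
            rw [a1]
            apply same i a _ z hn hw
            · rw [← a1]; exact r1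
            · intro v; rw [← a1]; exact (e1 v).symm
            · exact hz
          have s2 : PR T (WC A q (wa A z) (alt j i (mm A i j) ++ w'')) =
              PR T (WC A q (wa A z) (j :: b)) := by
            rw [a2]
            apply same j _ b z
            · rw [← a2, ← m2.2, hn]
            · rw [← a2]; exact r2
            · exact hw'
            · intro v; rw [← a2, e2 v]; exact he v
            · intro β hβ
              apply hz
              rw [m2.1, a2]
              exact hβ
          have htwo := (hRTWO l A d Φ hRS i j hij).1
          have s3 : PR T (WC A q (wa A z) (alt i j (mm A i j) ++ w'')) =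
              PR T (WC A q (wa A z) (alt j i (mm A i j) ++ w'')) := by
            rw [WC_append, WC_append, PR_append, PR_append]
            have hfun : (fun v => wa A z (wa A (alt i j (mm A i j)) v)) =
                (fun v => wa A z (wa A (alt j i (mm A i j)) v)) := by
              funext v
              rw [htwo v]
            rw [hfun]
            congr 1
            apply hRYB l A d Φ hRS q hq hq3 H T hT i j hij z
            intro β hβ
            apply hz
            rw [m1.1, rts_append]
            exact List.mem_append_left _ hβ
          rw [s1, s3, s2]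
  intro w w' hw hw' he z hz
  exact key w.length w w' z rfl hw hw' he hz

end Pool.Agent.Helper94.BN
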